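import Pool.Agent.Run7.h412.NR.FE
import Pool.Agent.Run7.h412.NR.MTd
import Pool.Agent.Run7.h992.NR.Cnt
import Pool.Agent.Run7.h992.NR.PolyB
import Pool.Agent.Run7.h111.NR.Sound
import Pool.Agent.Run7.h324.NR.LAB
import Pool.Agent.Run7.h824.NR.Ind

/-!
# A polynomial-time Monte Carlo algorithm for nonrepetitive colourings with `O(Δ²)` colours

There is a polynomial-time Turing machine which, given the adjacency matrix of a graph `G` with
`n ≥ 1` vertices and `p(n)` random bits (`p` a polynomial), outputs a nonrepetitive colouring of
`G` with at most `max 1 (32 Δ²)` colours, `Δ` the maximum degree of `G`, with probability at least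
`1 - 1/n`.

The algorithm resamples (in the manner of Moser and Tardos) repetitive paths of order at most
`2 (log₂ n + 2)`, starting with a random colouring.  There are superpolynomially many such paths; a
repetitive one is found by colour coding, that is by a search in time `2^(O(log n)) poly(n)` which
uses a family of random labellings of the vertices.  The number of resamplings is polynomial, and
no long path is repetitive at the end, with high probability, because the number of resamplings
of a given path in the process extended to long paths is small in expectation.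
-/

set_option autoImplicit false

namespace Pool.Agent.Results.MP_0272f9_lc.QuadraticMonteCarlo

open Pool.Agent.NPC

/-- A colouring `c` of the vertices of `G` is nonrepetitive: there is no path of even order, written
as `p ++ q` with `p` and `q` of the same length `≥ 1`, whose colour sequence is a square. -/
def Nonrepetitive {V : Type} (G : SimpleGraph V) (c : V → ℕ) : Prop :=
  ∀ p q : List V, p ≠ [] → p.length = q.length → (p ++ q).Nodup → (p ++ q).IsChain G.Adj →
    p.map c ≠ q.map c

/-- The adjacency matrix of a graph with vertices `0, ..., n-1`, as a list of rows. -/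
def adjMatrix {n : ℕ} (G : SimpleGraph (Fin n)) [DecidableRel G.Adj] : List (List Bool) :=
  List.ofFn fun i => List.ofFn fun j => decide (G.Adj i j)

open Classical in
/-- There are a polynomial-time computable function `A` on bit strings and a polynomial `p` such
that for each graph `G` with `n ≥ 1` vertices the following holds with probability at least
`1 - 1/n` for a uniformly random string `r` of `p(n)` bits: on the code of the adjacency matrix of
`G` and `r`, the value of `A` is the code of a nonrepetitive colouring of `G` with colours smaller
than `max 1 (32 Δ²)`. -/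
theorem result : ∃ (A : List Bool → List Bool) (p : Polynomial ℕ), PolyTime A ∧
    ∀ (n : ℕ), 1 ≤ n → ∀ (G : SimpleGraph (Fin n)) [DecidableRel G.Adj],
      (1 - 1 / n : ℝ) ≤ ((Finset.univ.filter (fun r : Fin (p.eval n) → Bool =>
        ∃ c : Fin n → ℕ, A (bits (adjMatrix G, List.ofFn r)) = bits (List.ofFn c) ∧
          (∀ v, c v < max 1 (32 * G.maxDegree ^ 2)) ∧ Nonrepetitive G c)).card : ℝ) /
        2 ^ p.eval n := by
  obtain ⟨A, p, hA, h⟩ := Run7.h412.NR.Run.final Run7.h412.NR.MT.t_MT Run7.h992.NR.t_CNT
    Run7.h824.NR.t_IND Run7.h324.NR.main_LAB Run7.h111.NR.t_sound Run7.h111.NR.t_compl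
    Run7.h992.NR.t_POLY
  refine ⟨A, p, hA, fun n hn G _ => ?_⟩
  have h1 := h n hn G
  have hn0 : (0 : ℝ) < n := by exact_mod_cast hn
  rw [le_div_iff₀ (by positivity)]
  have h2 : (((n - 1 : ℕ) : ℝ)) * 2 ^ p.eval n ≤ (n : ℝ) *
      ((Finset.univ.filter (fun r : Fin (p.eval n) → Bool =>
        ∃ c : Fin n → ℕ, A (bits (adjMatrix G, List.ofFn r)) = bits (List.ofFn c) ∧
          (∀ v, c v < max 1 (32 * G.maxDegree ^ 2)) ∧ Nonrepetitive G c)).card : ℝ) := by
    exact_mod_cast h1
  rw [Nat.cast_sub hn, Nat.cast_one] at h2
  have h3 : (1 - 1 / n : ℝ) * 2 ^ p.eval n = ((n : ℝ) - 1) * 2 ^ p.eval n / n := by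
    field_simp
  rw [h3, div_le_iff₀ hn0]
  linarith

end Pool.Agent.Results.MP_0272f9_lc.QuadraticMonteCarlo
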